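import Mathlib

/-!
# Union-closed families on a finite set: counting lemmas

`UC F` : the family `F` of subsets of `α` contains `∅` and is closed under unions (complements of
the members form a Moore family).  `U α` is the finite set of all these families.
-/

open Finset

namespace Pool.Agent.BoolD

variable {α : Type*} [Fintype α] [DecidableEq α]

/-- A family of subsets containing `∅` and closed under (binary, hence finite) unions. -/
def UC {α : Type*} [DecidableEq α] (F : Finset (Finset α)) : Prop :=
  ∅ ∈ F ∧ ∀ A ∈ F, ∀ B ∈ F, A ∪ B ∈ F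

instance {α : Type*} [DecidableEq α] (F : Finset (Finset α)) : Decidable (UC F) := by
  unfold UC; infer_instance

/-- All union-closed families containing `∅`. -/
def U (α : Type*) [Fintype α] [DecidableEq α] : Finset (Finset (Finset α)) :=
  univ.filter UC

omit [Fintype α] in
lemma UC.sup_mem {F : Finset (Finset α)} (hF : UC F) {G : Finset (Finset α)} (hG : G ⊆ F) :
    G.sup id ∈ F := by
  induction G using Finset.induction_on with
  | empty => simpa using hF.1
  | insert a s ha ih =>
    rw [Finset.sup_insert]
    exact hF.2 _ (hG (mem_insert_self _ _)) _ (ih (fun x hx => hG (mem_insert_of_mem hx)))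

/-- The join-irreducible members of a family. -/
def J (F : Finset (Finset α)) : Finset (Finset α) :=
  F.filter (fun A => (F.filter (fun B => B ⊂ A)).sup id ≠ A)

omit [Fintype α] in
lemma J_subset (F : Finset (Finset α)) : J F ⊆ F := filter_subset _ _

omit [Fintype α] in
lemma sup_filter_ssubset_le (F : Finset (Finset α)) (A : Finset α) :
    (F.filter (fun B => B ⊂ A)).sup id ≤ A := by
  apply Finset.sup_le
  intro B hB
  exact (mem_filter.1 hB).2.1

omit [Fintype α] in
lemma empty_notMem_J (F : Finset (Finset α)) : ∅ ∉ J F := by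
  intro h
  have h2 := (mem_filter.1 h).2
  apply h2
  have := sup_filter_ssubset_le F (∅ : Finset α)
  exact le_antisymm this (Finset.empty_subset _)

omit [Fintype α] in
/-- Removing join-irreducible members keeps a family union-closed. -/
lemma UC.sdiff {F R : Finset (Finset α)} (hF : UC F) (hR : R ⊆ J F) : UC (F \ R) := by
  refine ⟨?_, ?_⟩
  · rw [mem_sdiff]
    exact ⟨hF.1, fun h => empty_notMem_J F (hR h)⟩
  · intro A hA B hB
    rw [mem_sdiff] at hA hB ⊢
    refine ⟨hF.2 _ hA.1 _ hB.1, fun hAB => ?_⟩
    have hne := (mem_filter.1 (hR hAB)).2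
    apply hne
    have hA' : A ⊂ A ∪ B := by
      refine lt_of_le_of_ne subset_union_left ?_
      intro h
      exact hA.2 (by rw [h]; exact hAB)
    have hB' : B ⊂ A ∪ B := by
      refine lt_of_le_of_ne subset_union_right ?_
      intro h
      exact hB.2 (by rw [h]; exact hAB)
    apply le_antisymm (sup_filter_ssubset_le F _)
    apply union_subset
    · exact Finset.le_sup (f := id) (mem_filter.2 ⟨hA.1, hA'⟩)
    · exact Finset.le_sup (f := id) (mem_filter.2 ⟨hB.1, hB'⟩)

omit [Fintype α] in
/-- Every member is the union of the join-irreducible members below it. -/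
lemma sup_J {F : Finset (Finset α)} : ∀ A ∈ F, ((J F).filter (fun B => B ⊆ A)).sup id = A := by
  intro A
  induction A using Finset.strongInduction with
  | H A ih =>
    intro hA
    apply le_antisymm
    · apply Finset.sup_le
      intro B hB
      exact (mem_filter.1 hB).2
    · by_cases h : A ∈ J F
      · exact Finset.le_sup (f := id) (mem_filter.2 ⟨h, subset_rfl⟩)
      · have h2 : (F.filter (fun B => B ⊂ A)).sup id = A := by
          by_contra hne
          exact h (mem_filter.2 ⟨hA, hne⟩)
        calc A = (F.filter (fun B => B ⊂ A)).sup id := h2.symm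
          _ ≤ _ := by
            apply Finset.sup_le
            intro B hB
            rw [mem_filter] at hB
            have h3 := ih B hB.2 hB.1
            have h4 : id B = ((J F).filter (fun C => C ⊆ B)).sup id := h3.symm
            rw [h4]
            apply Finset.sup_mono
            intro C hC
            rw [mem_filter] at hC ⊢
            exact ⟨hC.1, hC.2.trans hB.2.1⟩

/-- A union-closed family is determined by any subset containing its join-irreducible members. -/
lemma UC.recover {F G : Finset (Finset α)} (hF : UC F) (h1 : J F ⊆ G) (h2 : G ⊆ F) :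
    F = univ.filter (fun A => (G.filter (fun B => B ⊆ A)).sup id = A) := by
  ext A
  rw [mem_filter]
  constructor
  · intro hA
    refine ⟨mem_univ _, ?_⟩
    apply le_antisymm
    · apply Finset.sup_le
      intro B hB
      exact (mem_filter.1 hB).2
    · calc A = ((J F).filter (fun B => B ⊆ A)).sup id := (sup_J A hA).symm
        _ ≤ _ := Finset.sup_mono (Finset.filter_subset_filter _ h1)
  · rintro ⟨-, hA⟩
    rw [← hA]
    exact hF.sup_mem (fun B hB => h2 (mem_filter.1 hB).1)

/-- Families avoiding the point `b`. -/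
def Ub (b : α) : Finset (Finset (Finset α)) := (U α).filter (fun F => ∀ A ∈ F, b ∉ A)

lemma mem_U {F : Finset (Finset α)} : F ∈ U α ↔ UC F := by simp [U]

lemma mem_Ub {b : α} {F : Finset (Finset α)} : F ∈ Ub b ↔ UC F ∧ ∀ A ∈ F, b ∉ A := by
  simp [Ub, mem_U]

/-- Number of subsets of size at most `k` of a finite set with `N` elements. -/
lemma card_filter_card_le {β : Type*} [DecidableEq β] (T : Finset β) (k : ℕ) :
    (T.powerset.filter (fun S => S.card ≤ k)).card ≤ (T.card + 1) ^ k := by
  have h1 : T.powerset.filter (fun S => S.card ≤ k) ⊆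
      (Finset.range (k + 1)).biUnion (fun i => T.powersetCard i) := by
    intro S hS
    rw [mem_filter, mem_powerset] at hS
    rw [mem_biUnion]
    exact ⟨S.card, mem_range.2 (by omega), mem_powersetCard.2 ⟨hS.1, rfl⟩⟩
  refine (card_le_card h1).trans (card_biUnion_le.trans ?_)
  rw [add_pow]
  apply Finset.sum_le_sum
  intro i hi
  rw [card_powersetCard, one_pow, mul_one]
  have h2 : T.card.choose i ≤ T.card ^ i := Nat.choose_le_pow _ _
  have h3 : 1 ≤ k.choose i := Nat.choose_pos (by have := mem_range.1 hi; omega)
  calc T.card.choose i ≤ T.card ^ i := h2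
    _ = T.card ^ i * 1 := (mul_one _).symm
    _ ≤ T.card ^ i * k.choose i := Nat.mul_le_mul_left _ h3

/-- (a1): `∑_F 2^{r(F)}` over the families avoiding `b` is at most the number of all families. -/
lemma sum_two_pow_le (b : α) : ∑ F ∈ Ub b, 2 ^ (J F).card ≤ (U α).card := by
  have h0 : ∑ F ∈ Ub b, 2 ^ (J F).card =
      ((Ub b).sigma (fun F => (J F).powerset)).card := by
    rw [card_sigma]
    apply Finset.sum_congr rfl
    intro F _
    rw [card_powerset]
  rw [h0]
  apply Finset.card_le_card_of_injOn
    (fun p : (Σ _ : Finset (Finset α), Finset (Finset α)) =>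
      (p.1 \ p.2) ∪ p.1.image (insert b))
  · rintro ⟨F, R⟩ hFR
    simp only [coe_sigma, Set.mem_sigma_iff, mem_coe, mem_powerset] at hFR
    obtain ⟨hF, hR⟩ := hFR
    rw [mem_Ub] at hF
    rw [mem_coe, mem_U]
    have hS := hF.1.sdiff hR
    refine ⟨mem_union_left _ hS.1, ?_⟩
    intro A hA B hB
    simp only [mem_union, mem_image] at hA hB ⊢
    rcases hA with hA | ⟨A', hA', rfl⟩
    · rcases hB with hB | ⟨B', hB', rfl⟩
      · exact Or.inl (hS.2 _ hA _ hB)
      · refine Or.inr ⟨A ∪ B', hF.1.2 _ (mem_sdiff.1 hA).1 _ hB', ?_⟩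
        rw [union_insert]
    · rcases hB with hB | ⟨B', hB', rfl⟩
      · refine Or.inr ⟨A' ∪ B, hF.1.2 _ hA' _ (mem_sdiff.1 hB).1, ?_⟩
        rw [insert_union]
      · refine Or.inr ⟨A' ∪ B', hF.1.2 _ hA' _ hB', ?_⟩
        ext x; simp only [mem_union, mem_insert]; tauto
  · rintro ⟨F, R⟩ hFR ⟨F', R'⟩ hFR' heq
    simp only [coe_sigma, Set.mem_sigma_iff, mem_coe, mem_powerset] at hFR hFR'
    obtain ⟨hF, hR⟩ := hFR
    obtain ⟨hF', hR'⟩ := hFR'
    rw [mem_Ub] at hF hF'
    simp only at heq
    -- recover `F` as the traces of the members containing `b`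
    have key : ∀ {F R : Finset (Finset α)}, (∀ A ∈ F, b ∉ A) →
        F = (((F \ R) ∪ F.image (insert b)).filter (fun A => b ∈ A)).image (fun A => A.erase b) := by
      intro F R hb
      ext A
      simp only [mem_image, mem_filter, mem_union]
      constructor
      · intro hA
        refine ⟨insert b A, ⟨Or.inr ⟨A, hA, rfl⟩, mem_insert_self _ _⟩, ?_⟩
        rw [erase_insert (hb A hA)]
      · rintro ⟨B, ⟨hB | ⟨C, hC, rfl⟩, hbB⟩, rfl⟩
        · exact absurd hbB (hb B (mem_sdiff.1 hB).1)
        · rw [erase_insert (hb C hC)]; exact hC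
    have key2 : ∀ {F R : Finset (Finset α)}, (∀ A ∈ F, b ∉ A) →
        F \ R = ((F \ R) ∪ F.image (insert b)).filter (fun A => b ∉ A) := by
      intro F R hb
      ext A
      simp only [mem_image, mem_filter, mem_union]
      constructor
      · intro hA
        exact ⟨Or.inl hA, hb A (mem_sdiff.1 hA).1⟩
      · rintro ⟨hB | ⟨C, hC, rfl⟩, hbB⟩
        · exact hB
        · exact absurd (mem_insert_self _ _) hbB
    have e1 : F = F' := by
      rw [key (R := R) hF.2, key (R := R') hF'.2, heq]
    subst e1
    have e2 : F \ R = F \ R' := by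
      rw [key2 (R := R) hF.2, key2 (R := R') hF'.2, heq]
    have e3 : R = R' := by
      have t1 : F \ (F \ R) = R := by
        rw [_root_.sdiff_sdiff_eq_self (hR.trans (J_subset F))]
      have t2 : F \ (F \ R') = R' := by
        rw [_root_.sdiff_sdiff_eq_self (hR'.trans (J_subset F))]
      rw [← t1, ← t2, e2]
    subst e3
    rfl

/-- (a2): few families have few join-irreducible members. -/
lemma card_few_irr (b : α) (k : ℕ) :
    ((Ub b).filter (fun F => (J F).card ≤ k)).card ≤ 2 ^ (Fintype.card α * k) := by
  classical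
  have h1 : ((Ub b).filter (fun F => (J F).card ≤ k)).card ≤
      ((((univ.erase b).powerset).powerset).filter (fun S => S.card ≤ k)).card := by
    apply Finset.card_le_card_of_injOn J
    · intro F hF
      rw [mem_coe, mem_filter, mem_Ub] at hF
      rw [mem_coe, mem_filter, mem_powerset]
      refine ⟨?_, hF.2⟩
      intro A hA
      rw [mem_powerset]
      intro x hx
      rw [mem_erase]
      refine ⟨?_, mem_univ _⟩
      rintro rfl
      exact hF.1.2 A (J_subset F hA) hx
    · intro F hF F' hF' h
      rw [mem_coe, mem_filter, mem_Ub] at hF hF'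
      rw [hF.1.1.recover (subset_refl _) (J_subset F),
        hF'.1.1.recover (subset_refl _) (J_subset F'), h]
  refine h1.trans ((card_filter_card_le _ _).trans ?_)
  rw [card_powerset, card_erase_of_mem (mem_univ b), card_univ, pow_mul]
  apply Nat.pow_le_pow_left
  have hpos : 0 < Fintype.card α := Fintype.card_pos_iff.2 ⟨b⟩
  obtain ⟨m, hm⟩ := Nat.exists_eq_succ_of_ne_zero hpos.ne'
  rw [hm, Nat.succ_sub_one, pow_succ]
  have := Nat.one_le_two_pow (n := m)
  omega

/-- (a3): many families avoid `b`. -/
lemma two_pow_choose_le (b : α) {k : ℕ} (hk : 1 ≤ k) :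
    2 ^ ((Fintype.card α - 1).choose k) ≤ (Ub b).card := by
  classical
  have h0 : 2 ^ ((Fintype.card α - 1).choose k) =
      (((univ.erase b).powersetCard k).powerset).card := by
    rw [card_powerset, card_powersetCard, card_erase_of_mem (mem_univ b), card_univ]
  rw [h0]
  apply Finset.card_le_card_of_injOn
    (fun S : Finset (Finset α) => S ∪ ((univ.erase b).powerset.filter
      (fun A => A = ∅ ∨ k < A.card)))
  · intro S hS
    rw [mem_coe, mem_powerset] at hS
    rw [mem_coe, mem_Ub]
    have hsub : ∀ A ∈ S, A ⊆ univ.erase b ∧ A.card = k := fun A hA =>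
      mem_powersetCard.1 (hS hA)
    refine ⟨⟨?_, ?_⟩, ?_⟩
    · apply mem_union_right
      rw [mem_filter, mem_powerset]
      exact ⟨empty_subset _, Or.inl rfl⟩
    · intro A hA B hB
      rcases eq_or_ne A ∅ with rfl | hA0
      · rw [empty_union]; exact hB
      rcases eq_or_ne B ∅ with rfl | hB0
      · rw [union_empty]; exact hA
      have hA1 : A ⊆ univ.erase b ∧ (A.card = k → A ∈ S) ∧ k ≤ A.card := by
        simp only [mem_union, mem_filter, mem_powerset] at hA
        rcases hA with hA | ⟨hA, hA2 | hA2⟩
        · exact ⟨(hsub A hA).1, fun _ => hA, (hsub A hA).2.ge⟩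
        · exact absurd hA2 hA0
        · exact ⟨hA, fun h => absurd h hA2.ne', hA2.le⟩
      have hB1 : B ⊆ univ.erase b ∧ (B.card = k → B ∈ S) ∧ k ≤ B.card := by
        simp only [mem_union, mem_filter, mem_powerset] at hB
        rcases hB with hB | ⟨hB, hB2 | hB2⟩
        · exact ⟨(hsub B hB).1, fun _ => hB, (hsub B hB).2.ge⟩
        · exact absurd hB2 hB0
        · exact ⟨hB, fun h => absurd h hB2.ne', hB2.le⟩
      have hle : A.card ≤ (A ∪ B).card := card_le_card subset_union_left
      rcases eq_or_lt_of_le (hA1.2.2.trans hle) with h | h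
      · have hAU : A = A ∪ B := Finset.eq_of_subset_of_card_le subset_union_left
          (by rw [← h]; exact hA1.2.2)
        rw [← hAU]
        apply mem_union_left
        apply hA1.2.1
        rw [hAU]; exact h.symm
      · apply mem_union_right
        rw [mem_filter, mem_powerset]
        exact ⟨union_subset hA1.1 hB1.1, Or.inr h⟩
    · intro A hA hb
      simp only [mem_union, mem_filter, mem_powerset] at hA
      have : A ⊆ univ.erase b := by
        rcases hA with hA | ⟨hA, -⟩
        · exact (hsub A hA).1
        · exact hA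
      exact (mem_erase.1 (this hb)).1 rfl
  · intro S hS S' hS' heq
    rw [mem_coe, mem_powerset] at hS hS'
    have key : ∀ {S : Finset (Finset α)}, S ⊆ (univ.erase b).powersetCard k →
        S = (S ∪ ((univ.erase b).powerset.filter
          (fun A => A = ∅ ∨ k < A.card))).filter (fun A => A.card = k) := by
      intro S hS
      ext A
      simp only [mem_filter, mem_union]
      constructor
      · intro hA
        exact ⟨Or.inl hA, (mem_powersetCard.1 (hS hA)).2⟩
      · rintro ⟨hA | ⟨-, rfl | hA⟩, hAk⟩
        · exact hA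
        · rw [card_empty] at hAk; omega
        · omega
    simp only at heq
    rw [key hS, key hS', heq]

/-- (a): the recursion `N_b · 2^R ≤ M`. -/
lemma Ub_mul_two_pow_le (b : α) {k R : ℕ} (hk : 1 ≤ k)
    (hR : Fintype.card α * R + 1 ≤ (Fintype.card α - 1).choose k) :
    (Ub b).card * 2 ^ R ≤ (U α).card := by
  have h1 := two_pow_choose_le b hk
  have h2 := card_few_irr b R
  have h3 := sum_two_pow_le b
  have h4 : 2 * 2 ^ (Fintype.card α * R) ≤ (Ub b).card := by
    calc 2 * 2 ^ (Fintype.card α * R) = 2 ^ (Fintype.card α * R + 1) := by rw [pow_succ]; ring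
      _ ≤ _ := (Nat.pow_le_pow_right (by norm_num) hR).trans h1
  set X := (Ub b).filter (fun F => (J F).card ≤ R) with hX
  set Y := (Ub b).filter (fun F => ¬ (J F).card ≤ R) with hY
  have hsplit : X.card + Y.card = (Ub b).card := Finset.card_filter_add_card_filter_not _
  have hYsum : Y.card * 2 ^ (R + 1) ≤ ∑ F ∈ Ub b, 2 ^ (J F).card := by
    calc Y.card * 2 ^ (R + 1) = ∑ F ∈ Y, 2 ^ (R + 1) := by rw [sum_const, smul_eq_mul]
      _ ≤ ∑ F ∈ Y, 2 ^ (J F).card := by
        apply Finset.sum_le_sum
        intro F hF
        apply Nat.pow_le_pow_right (by norm_num)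
        have := (mem_filter.1 hF).2
        omega
      _ ≤ _ := Finset.sum_le_sum_of_subset (filter_subset _ _)
  have h5 : (Ub b).card ≤ 2 * Y.card := by omega
  calc (Ub b).card * 2 ^ R ≤ 2 * Y.card * 2 ^ R := Nat.mul_le_mul_right _ h5
    _ = Y.card * 2 ^ (R + 1) := by rw [pow_succ]; ring
    _ ≤ _ := hYsum.trans h3

end Pool.Agent.BoolD
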