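import Pool.Agent.Lib.MP_380ab1_co.Matrices

/-!
# The asymptotic number of D-classes when there are at least `2 ^ n` columns
-/

open Finset Filter Topology
open scoped Pointwise Nat

namespace Pool.Agent.BoolD

/-- The number of families of subsets of `{1, …, n}` which contain `∅` and are closed under
unions (complementation turns them into the Moore families, i.e. the closure systems). -/
noncomputable def mooreNumber (n : ℕ) : ℕ :=
  Nat.card {F : Finset (Finset (Fin n)) // ∅ ∈ F ∧ ∀ A ∈ F, ∀ B ∈ F, A ∪ B ∈ F}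

lemma mooreNumber_eq (n : ℕ) : mooreNumber n = (U (Fin n)).card := by
  classical
  rw [mooreNumber, Nat.card_eq_fintype_card, Fintype.card_subtype]
  congr 1
  ext F
  simp [U, UC]

/-- The finite inequality. -/
lemma main_ineq {n m R : ℕ} (hm : 2 ^ n ≤ m) (hn : 3 ≤ n)
    (hR : n * (((n + 1) * n + 1) * R) + 1 ≤ (n - 1).choose ((n - 1) / 2)) :
    (mooreNumber n : ℝ) - n * 2 ^ n * mooreNumber n / 2 ^ R ≤ n ! * numD n m ∧
    (n ! * numD n m : ℝ) ≤ mooreNumber n + 2 * (n ! : ℝ) ^ 2 * mooreNumber n / 2 ^ R := by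
  classical
  rw [mooreNumber_eq]
  set M := (U (Fin n)).card with hM
  have hk : 1 ≤ (n - 1) / 2 := by omega
  have hcard : Fintype.card (Fin n) = n := Fintype.card_fin n
  have hUb : ∀ b : Fin n, (Ub b).card * 2 ^ (((n + 1) * n + 1) * R) ≤ M := by
    intro b
    apply Ub_mul_two_pow_le b hk
    rw [hcard]; exact hR
  have h2R : (0 : ℝ) < 2 ^ R := by positivity
  constructor
  · -- lower bound
    have h1 := red_card_le hm
    have h2 : M ≤ (Red n).card + ∑ i : Fin n, 2 ^ n * (Ub i).card := by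
      have hsub : U (Fin n) ⊆ Red n ∪ (univ : Finset (Fin n)).biUnion
          (fun i => (U (Fin n)).filter (fun F => Redundant F i)) := by
        intro F hF
        rw [mem_union, mem_biUnion]
        by_cases h : ∀ i, ¬ Redundant F i
        · exact Or.inl (mem_filter.2 ⟨hF, h⟩)
        · push Not at h
          obtain ⟨i, hi⟩ := h
          exact Or.inr ⟨i, mem_univ _, mem_filter.2 ⟨hF, hi⟩⟩
      refine (card_le_card hsub).trans ((card_union_le _ _).trans (Nat.add_le_add_left ?_ _))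
      refine card_biUnion_le.trans (Finset.sum_le_sum ?_)
      intro i _
      have := redundant_le i
      rwa [hcard] at this
    have h3 : (∑ i : Fin n, 2 ^ n * (Ub i).card) * 2 ^ R ≤ n * 2 ^ n * M := by
      rw [Finset.sum_mul]
      calc ∑ i : Fin n, 2 ^ n * (Ub i).card * 2 ^ R ≤ ∑ i : Fin n, 2 ^ n * M := by
            apply Finset.sum_le_sum
            intro i _
            rw [mul_assoc]
            apply Nat.mul_le_mul_left
            refine le_trans (Nat.mul_le_mul_left _ ?_) (hUb i)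
            apply Nat.pow_le_pow_right (by norm_num)
            exact Nat.le_mul_of_pos_left _ (by positivity)
        _ = n * 2 ^ n * M := by rw [sum_const, card_univ, hcard, smul_eq_mul]; ring
    have h1' : ((Red n).card : ℝ) ≤ n ! * numD n m := by exact_mod_cast h1
    have h2' : (M : ℝ) ≤ (Red n).card + ((∑ i : Fin n, 2 ^ n * (Ub i).card : ℕ) : ℝ) := by
      exact_mod_cast h2
    have h3' : ((∑ i : Fin n, 2 ^ n * (Ub i).card : ℕ) : ℝ) * 2 ^ R ≤ n * 2 ^ n * M := by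
      exact_mod_cast h3
    have h4 : ((∑ i : Fin n, 2 ^ n * (Ub i).card : ℕ) : ℝ) ≤ n * 2 ^ n * M / 2 ^ R := by
      rw [le_div_iff₀ h2R]; exact h3'
    linarith
  · -- upper bound
    have h1 := numD_le hm
    have hFx : ∀ σ : Equiv.Perm (Fin n), σ ≠ 1 → (Fx σ).card * 2 ^ R ≤ 2 * M := by
      intro σ hσ
      obtain ⟨b, hb⟩ := exists_fx_le hσ R
      rw [hcard] at hb
      refine hb.trans ?_
      have : 2 ^ R * (2 ^ ((n + 1) * (n * R)) * (Ub b).card) =
          (Ub b).card * 2 ^ (((n + 1) * n + 1) * R) := by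
        rw [← mul_assoc, ← pow_add, mul_comm]
        congr 2
        ring
      rw [this]
      have := hUb b
      omega
    have h2 : (Sy n).card * 2 ^ R ≤ n ! * (2 * M) := by
      have hsub : Sy n ⊆ (univ.filter (fun σ : Equiv.Perm (Fin n) => σ ≠ 1)).biUnion
          (fun σ => Fx σ) := by
        intro F hF
        rw [Sy, mem_filter] at hF
        obtain ⟨hF1, σ, hσ, hσF⟩ := hF
        rw [mem_biUnion]
        exact ⟨σ, mem_filter.2 ⟨mem_univ _, hσ⟩, mem_filter.2 ⟨hF1, hσF⟩⟩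
      calc (Sy n).card * 2 ^ R ≤ (∑ σ ∈ univ.filter (fun σ : Equiv.Perm (Fin n) => σ ≠ 1),
            (Fx σ).card) * 2 ^ R :=
            Nat.mul_le_mul_right _ ((card_le_card hsub).trans card_biUnion_le)
        _ = ∑ σ ∈ univ.filter (fun σ : Equiv.Perm (Fin n) => σ ≠ 1), (Fx σ).card * 2 ^ R :=
            Finset.sum_mul _ _ _
        _ ≤ ∑ σ ∈ univ.filter (fun σ : Equiv.Perm (Fin n) => σ ≠ 1), 2 * M := by
            apply Finset.sum_le_sum
            intro σ hσ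
            exact hFx σ (mem_filter.1 hσ).2
        _ ≤ ∑ σ : Equiv.Perm (Fin n), 2 * M :=
            Finset.sum_le_sum_of_subset (filter_subset _ _)
        _ = n ! * (2 * M) := by
            rw [sum_const, card_univ, Fintype.card_perm, hcard, smul_eq_mul]
    have h1' : (n ! * numD n m : ℝ) ≤ M + n ! * (Sy n).card := by exact_mod_cast h1
    have h2' : ((Sy n).card : ℝ) * 2 ^ R ≤ n ! * (2 * M) := by exact_mod_cast h2
    have h3 : ((Sy n).card : ℝ) ≤ n ! * (2 * M) / 2 ^ R := by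
      rw [le_div_iff₀ h2R]; exact h2'
    have h4 : (n ! : ℝ) * (Sy n).card ≤ n ! * (n ! * (2 * M) / 2 ^ R) :=
      mul_le_mul_of_nonneg_left h3 (by positivity)
    calc (n ! * numD n m : ℝ) ≤ M + n ! * (n ! * (2 * M) / 2 ^ R) := by linarith
      _ = _ := by ring

lemma choose_middle_ge (n : ℕ) : 2 ^ n ≤ (n + 1) * n.choose (n / 2) := by
  calc 2 ^ n = ∑ i ∈ Finset.range (n + 1), n.choose i := (Nat.sum_range_choose n).symm
    _ ≤ ∑ i ∈ Finset.range (n + 1), n.choose (n / 2) := by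
      apply Finset.sum_le_sum
      intro i _
      exact Nat.choose_le_middle i n
    _ = _ := by rw [sum_const, card_range, smul_eq_mul]

lemma two_pow_ge {n : ℕ} (hn : 40 ≤ n) : 32 * n ^ 6 ≤ 2 ^ n := by
  induction n, hn using Nat.le_induction with
  | base => norm_num
  | succ n hn ih =>
    have h1 : (n + 1) ^ 6 ≤ 2 * n ^ 6 := by
      have e5 : 40 * n ^ 5 ≤ n ^ 6 := by
        calc 40 * n ^ 5 ≤ n * n ^ 5 := Nat.mul_le_mul_right _ hn
          _ = n ^ 6 := by ring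
      have e4 : n ^ 4 ≤ n ^ 5 := Nat.pow_le_pow_right (by omega) (by norm_num)
      have e3 : n ^ 3 ≤ n ^ 5 := Nat.pow_le_pow_right (by omega) (by norm_num)
      have e2 : n ^ 2 ≤ n ^ 5 := Nat.pow_le_pow_right (by omega) (by norm_num)
      have e1 : n ≤ n ^ 5 := Nat.le_self_pow (by norm_num) n
      have e0 : 1 ≤ n ^ 5 := Nat.one_le_pow _ _ (by omega)
      -- the crude bound needs a finer split
      have f4 : 40 * n ^ 4 ≤ n ^ 5 := by
        calc 40 * n ^ 4 ≤ n * n ^ 4 := Nat.mul_le_mul_right _ hn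
          _ = n ^ 5 := by ring
      have f3 : n ^ 3 ≤ n ^ 4 := Nat.pow_le_pow_right (by omega) (by norm_num)
      have f2 : n ^ 2 ≤ n ^ 4 := Nat.pow_le_pow_right (by omega) (by norm_num)
      have f1 : n ≤ n ^ 4 := Nat.le_self_pow (by norm_num) n
      have f0 : 1 ≤ n ^ 4 := Nat.one_le_pow _ _ (by omega)
      have hexp : (n + 1) ^ 6 = n ^ 6 + 6 * n ^ 5 + 15 * n ^ 4 + 20 * n ^ 3 + 15 * n ^ 2 +
        6 * n + 1 := by ring
      rw [hexp]
      nlinarith
    calc 32 * (n + 1) ^ 6 ≤ 32 * (2 * n ^ 6) := Nat.mul_le_mul_left _ h1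
      _ = 2 * (32 * n ^ 6) := by ring
      _ ≤ 2 * 2 ^ n := Nat.mul_le_mul_left _ ih
      _ = 2 ^ (n + 1) := by rw [pow_succ]; ring

lemma mooreNumber_pos (n : ℕ) : 0 < mooreNumber n := by
  rw [mooreNumber_eq, card_pos]
  exact ⟨univ, mem_U.2 ⟨mem_univ _, fun _ _ _ _ => mem_univ _⟩⟩

/-- The quantitative theorem. -/
theorem quantitative {n m : ℕ} (hn : 40 ≤ n) (hm : 2 ^ n ≤ m) :
    |(n ! * numD n m : ℝ) / mooreNumber n - 1| ≤ 2 ^ (-(2 ^ n / n ^ 5 : ℝ)) := by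
  set C := (n - 1).choose ((n - 1) / 2) with hC
  set q := n * ((n + 1) * n + 1) with hq
  have hqpos : 0 < q := by positivity
  set R := (C - 1) / q with hR
  have hCpos : 1 ≤ C := Nat.choose_pos (Nat.div_le_self _ _)
  have hRle : n * (((n + 1) * n + 1) * R) + 1 ≤ C := by
    have h1 : q * R ≤ C - 1 := Nat.mul_div_le _ _
    have h2 : n * (((n + 1) * n + 1) * R) = q * R := by rw [hq]; ring
    rw [h2]; omega
  obtain ⟨hlo, hhi⟩ := main_ineq hm (by omega) hRle
  -- real estimates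
  have hnR : (40 : ℝ) ≤ n := by exact_mod_cast hn
  have hnpos : (0 : ℝ) < n := by linarith
  have hM : (0 : ℝ) < mooreNumber n := by exact_mod_cast mooreNumber_pos n
  have h2R : (0 : ℝ) < (2 : ℝ) ^ R := by positivity
  -- size of `R`
  have hRge : (2 : ℝ) ^ n / (4 * n ^ 4) - 2 ≤ R := by
    have h1 : 2 ^ (n - 1) ≤ n * C := by
      have := choose_middle_ge (n - 1)
      rwa [Nat.sub_add_cancel (by omega : 1 ≤ n)] at this
    have h2 : C - 1 < q * (R + 1) := by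
      have := Nat.lt_mul_div_succ (C - 1) hqpos
      exact this
    have h3 : C ≤ q * (R + 1) := by omega
    have h4 : 2 ^ n ≤ 2 * (n * (q * (R + 1))) := by
      calc 2 ^ n = 2 * 2 ^ (n - 1) := by
            rw [← pow_succ', Nat.sub_add_cancel (by omega : 1 ≤ n)]
        _ ≤ 2 * (n * C) := Nat.mul_le_mul_left _ h1
        _ ≤ _ := Nat.mul_le_mul_left _ (Nat.mul_le_mul_left _ h3)
    have h5 : n * q ≤ 2 * n ^ 4 := by
      have e1 : n * q = n ^ 4 + n ^ 3 + n ^ 2 := by rw [hq]; ring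
      have e2 : 40 * n ^ 3 ≤ n ^ 4 := by
        calc 40 * n ^ 3 ≤ n * n ^ 3 := Nat.mul_le_mul_right _ hn
          _ = n ^ 4 := by ring
      have e3 : n ^ 2 ≤ n ^ 3 := Nat.pow_le_pow_right (by omega) (by norm_num)
      rw [e1]; omega
    have h6 : 2 ^ n ≤ 4 * n ^ 4 * (R + 1) := by
      calc 2 ^ n ≤ 2 * (n * (q * (R + 1))) := h4
        _ = 2 * (n * q) * (R + 1) := by ring
        _ ≤ 2 * (2 * n ^ 4) * (R + 1) :=
            Nat.mul_le_mul_right _ (Nat.mul_le_mul_left _ h5)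
        _ = _ := by ring
    have h7 : (2 : ℝ) ^ n ≤ 4 * n ^ 4 * (R + 1) := by exact_mod_cast h6
    have h8 : (2 : ℝ) ^ n / (4 * n ^ 4) ≤ R + 1 := by
      rw [div_le_iff₀ (by positivity)]
      linarith
    linarith
  have hbig : (2 : ℝ) ^ n / n ^ 5 + (2 * n ^ 2 + 2) ≤ R := by
    have h1 : (32 : ℝ) * n ^ 6 ≤ 2 ^ n := by exact_mod_cast two_pow_ge hn
    have h2 : (2 : ℝ) ^ n / n ^ 5 ≤ 2 ^ n / (40 * n ^ 4) := by
      apply div_le_div_of_nonneg_left (by positivity) (by positivity)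
      calc (40 : ℝ) * n ^ 4 ≤ n * n ^ 4 := mul_le_mul_of_nonneg_right hnR (by positivity)
        _ = n ^ 5 := by ring
    have h3 : 32 * (n : ℝ) ^ 2 ≤ 2 ^ n / n ^ 4 := by
      rw [le_div_iff₀ (by positivity)]
      calc 32 * (n : ℝ) ^ 2 * n ^ 4 = 32 * n ^ 6 := by ring
        _ ≤ _ := h1
    have h4 : (2 : ℝ) ^ n / (4 * n ^ 4) = (2 ^ n / n ^ 4) / 4 := by
      rw [div_div]; ring_nf
    have h5 : (2 : ℝ) ^ n / (40 * n ^ 4) = (2 ^ n / n ^ 4) / 40 := by
      rw [div_div]; ring_nf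
    rw [h4] at hRge
    rw [h5] at h2
    have h6 : (1600 : ℝ) ≤ (n : ℝ) ^ 2 := by nlinarith
    linarith
  -- the error term
  have hfac : (n ! : ℝ) ≤ 2 ^ (n * n) := by
    have h1 : n ! ≤ n ^ n := Nat.factorial_le_pow n
    have h2 : n ≤ 2 ^ n := Nat.lt_two_pow_self.le
    have h3 : n ! ≤ 2 ^ (n * n) := by
      calc n ! ≤ n ^ n := h1
        _ ≤ (2 ^ n) ^ n := Nat.pow_le_pow_left h2 n
        _ = 2 ^ (n * n) := by rw [← pow_mul]
    exact_mod_cast h3
  have herr1 : 2 * (n ! : ℝ) ^ 2 ≤ 2 ^ (2 * n ^ 2 + 2) := by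
    calc 2 * (n ! : ℝ) ^ 2 ≤ 2 * (2 ^ (n * n)) ^ 2 := by
          have := pow_le_pow_left₀ (by positivity) hfac 2
          linarith
      _ = 2 ^ (2 * n ^ 2 + 1) := by rw [← pow_mul, pow_succ]; ring_nf
      _ ≤ 2 ^ (2 * n ^ 2 + 2) := pow_le_pow_right₀ (by norm_num) (by omega)
  have herr2 : (n : ℝ) * 2 ^ n ≤ 2 ^ (2 * n ^ 2 + 2) := by
    have h2 : (n : ℝ) ≤ 2 ^ n := by exact_mod_cast (Nat.lt_two_pow_self (n := n)).le
    calc (n : ℝ) * 2 ^ n ≤ 2 ^ n * 2 ^ n := mul_le_mul_of_nonneg_right h2 (by positivity)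
      _ = 2 ^ (n + n) := by rw [pow_add]
      _ ≤ 2 ^ (2 * n ^ 2 + 2) := pow_le_pow_right₀ (by norm_num) (by nlinarith)
  have hfinal : (2 : ℝ) ^ (2 * n ^ 2 + 2) / 2 ^ R ≤ 2 ^ (-(2 ^ n / n ^ 5 : ℝ)) := by
    rw [div_le_iff₀ h2R]
    have e1 : (2 : ℝ) ^ (2 * n ^ 2 + 2) = (2 : ℝ) ^ ((2 * n ^ 2 + 2 : ℕ) : ℝ) :=
      (Real.rpow_natCast _ _).symm
    have e2 : (2 : ℝ) ^ R = (2 : ℝ) ^ (R : ℝ) := (Real.rpow_natCast _ _).symm
    rw [e1, e2, ← Real.rpow_add (by norm_num)]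
    apply Real.rpow_le_rpow_of_exponent_le (by norm_num)
    push_cast
    linarith
  rw [abs_le]
  constructor
  · have h1 : 1 - (n * 2 ^ n) / 2 ^ R ≤ (n ! * numD n m : ℝ) / mooreNumber n := by
      rw [le_div_iff₀ hM]
      calc (1 - (n * 2 ^ n) / 2 ^ R) * (mooreNumber n : ℝ)
          = (mooreNumber n : ℝ) - n * 2 ^ n * mooreNumber n / 2 ^ R := by ring
        _ ≤ _ := hlo
    have h2 : ((n : ℝ) * 2 ^ n) / 2 ^ R ≤ 2 ^ (2 * n ^ 2 + 2) / 2 ^ R :=
      div_le_div_of_nonneg_right herr2 h2R.le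
    linarith
  · have h1 : (n ! * numD n m : ℝ) / mooreNumber n ≤ 1 + (2 * (n ! : ℝ) ^ 2) / 2 ^ R := by
      rw [div_le_iff₀ hM]
      calc (n ! * numD n m : ℝ) ≤ _ := hhi
        _ = (1 + (2 * (n ! : ℝ) ^ 2) / 2 ^ R) * mooreNumber n := by ring
    have h2 : (2 * (n ! : ℝ) ^ 2) / 2 ^ R ≤ 2 ^ (2 * n ^ 2 + 2) / 2 ^ R :=
      div_le_div_of_nonneg_right herr1 h2R.le
    linarith

/-- The asymptotic statement in the regime `n / log m → 0`. -/
theorem asymptotic {ν μ : ℕ → ℕ} (hν : Tendsto ν atTop atTop) (hμ : Tendsto μ atTop atTop)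
    (h : Tendsto (fun k => (ν k : ℝ) / Real.log (μ k)) atTop (𝓝 0)) :
    Tendsto (fun k => (numD (ν k) (μ k) : ℝ) / ((mooreNumber (ν k) : ℝ) / (ν k)!))
      atTop (𝓝 1) := by
  have hev : ∀ᶠ k in atTop, 40 ≤ ν k ∧ 2 ^ (ν k) ≤ μ k := by
    have h1 : ∀ᶠ k in atTop, 40 ≤ ν k := hν.eventually_ge_atTop 40
    have h2 : ∀ᶠ k in atTop, 2 ≤ μ k := hμ.eventually_ge_atTop 2
    have h3 : ∀ᶠ k in atTop, (ν k : ℝ) / Real.log (μ k) < 1 :=
      h.eventually (gt_mem_nhds (by norm_num))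
    filter_upwards [h1, h2, h3] with k h1 h2 h3
    refine ⟨h1, ?_⟩
    have hμ2 : (2 : ℝ) ≤ μ k := by exact_mod_cast h2
    have hμpos : (0 : ℝ) < μ k := by linarith
    have hlog : 0 < Real.log (μ k) := Real.log_pos (by linarith)
    rw [div_lt_one hlog] at h3
    have h4 : Real.log ((2 : ℝ) ^ (ν k)) ≤ Real.log (μ k) := by
      rw [Real.log_pow]
      have : Real.log 2 ≤ 1 := by
        have := Real.log_two_lt_d9; linarith
      have hν0 : (0 : ℝ) ≤ ν k := Nat.cast_nonneg _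
      nlinarith
    have h5 : (2 : ℝ) ^ (ν k) ≤ μ k := (Real.log_le_log_iff (by positivity) hμpos).1 h4
    exact_mod_cast h5
  rw [tendsto_iff_norm_sub_tendsto_zero]
  have hbound : ∀ᶠ k in atTop,
      ‖(numD (ν k) (μ k) : ℝ) / ((mooreNumber (ν k) : ℝ) / (ν k)!) - 1‖ ≤
        1 / (ν k : ℝ) := by
    filter_upwards [hev] with k hk
    have hq := quantitative hk.1 hk.2
    have heq : (numD (ν k) (μ k) : ℝ) / ((mooreNumber (ν k) : ℝ) / (ν k)!) =
        ((ν k)! * numD (ν k) (μ k) : ℝ) / mooreNumber (ν k) := by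
      rw [div_div_eq_mul_div, mul_comm]
    rw [heq, Real.norm_eq_abs]
    refine hq.trans ?_
    have hn : (40 : ℝ) ≤ ν k := by exact_mod_cast hk.1
    have hpos : (0 : ℝ) < ν k := by linarith
    have h1 : (32 : ℝ) * (ν k) ^ 6 ≤ 2 ^ (ν k) := by exact_mod_cast two_pow_ge hk.1
    have h2 : (ν k : ℝ) ≤ 2 ^ (ν k) / (ν k) ^ 5 := by
      rw [le_div_iff₀ (by positivity)]
      calc (ν k : ℝ) * (ν k : ℝ) ^ 5 = (ν k : ℝ) ^ 6 := by ring
        _ ≤ 32 * (ν k : ℝ) ^ 6 := by nlinarith [pow_pos hpos 6]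
        _ ≤ _ := h1
    have h3 : (2 : ℝ) ^ (-(2 ^ (ν k) / (ν k) ^ 5 : ℝ)) ≤ 2 ^ (-(ν k : ℝ)) :=
      Real.rpow_le_rpow_of_exponent_le (by norm_num) (by linarith)
    refine h3.trans ?_
    rw [Real.rpow_neg (by norm_num), Real.rpow_natCast, one_div]
    apply inv_anti₀ hpos
    exact_mod_cast (Nat.lt_two_pow_self (n := ν k)).le
  have hlim : Tendsto (fun k => 1 / (ν k : ℝ)) atTop (𝓝 0) := by
    have h1 := (tendsto_natCast_atTop_atTop (R := ℝ)).comp hν
    have h2 := tendsto_inv_atTop_zero.comp h1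
    refine h2.congr fun k => ?_
    simp [one_div]
  exact squeeze_zero' (Eventually.of_forall fun k => norm_nonneg _) hbound hlim

end Pool.Agent.BoolD
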