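import Pool.Agent.Lib.MP_380ab1_co.Families

/-!
# Families fixed by a permutation, and families with a redundant point
-/

open Finset
open scoped Pointwise

namespace Pool.Agent.BoolD

variable {α : Type*} [Fintype α] [DecidableEq α]

/-- The families in `U α` fixed by the permutation `σ`. -/
def Fx (σ : Equiv.Perm α) : Finset (Finset (Finset α)) := (U α).filter (fun F => σ • F = F)

omit [Fintype α] in
lemma smul_ssubset_iff (σ : Equiv.Perm α) {A B : Finset α} : σ • A ⊂ σ • B ↔ A ⊂ B := by
  rw [ssubset_iff_subset_ne, ssubset_iff_subset_ne, Finset.smul_finset_subset_smul_finset_iff]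
  refine and_congr_right fun _ => not_congr ?_
  exact (MulAction.injective σ).eq_iff

omit [Fintype α] in
lemma UC.smul {F : Finset (Finset α)} (hF : UC F) (σ : Equiv.Perm α) : UC (σ • F) := by
  refine ⟨?_, ?_⟩
  · rw [← Finset.smul_finset_empty σ, Finset.smul_mem_smul_finset_iff]
    exact hF.1
  · intro A hA B hB
    rw [Finset.mem_smul_finset] at hA hB
    obtain ⟨A, hA, rfl⟩ := hA
    obtain ⟨B, hB, rfl⟩ := hB
    rw [← Finset.smul_finset_union, Finset.smul_mem_smul_finset_iff]
    exact hF.2 _ hA _ hB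

omit [Fintype α] in
lemma sup_id_smul (σ : Equiv.Perm α) (G : Finset (Finset α)) :
    (σ • G).sup id = σ • (G.sup id) := by
  ext x
  simp only [Finset.mem_sup, Finset.mem_smul_finset, id]
  constructor
  · rintro ⟨B, ⟨A, hA, rfl⟩, hx⟩
    rw [Finset.mem_smul_finset] at hx
    obtain ⟨y, hy, rfl⟩ := hx
    exact ⟨y, ⟨A, hA, hy⟩, rfl⟩
  · rintro ⟨y, ⟨A, hA, hy⟩, rfl⟩
    exact ⟨σ • A, ⟨A, hA, rfl⟩, Finset.smul_mem_smul_finset hy⟩

omit [Fintype α] in
/-- A permutation preserving the family preserves the join-irreducible members. -/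
lemma smul_mem_J {F : Finset (Finset α)} {σ : Equiv.Perm α} (h : σ • F = F) {A : Finset α}
    (hA : A ∈ J F) : σ • A ∈ J F := by
  rw [J, mem_filter] at hA ⊢
  refine ⟨?_, ?_⟩
  · rw [← h, Finset.smul_mem_smul_finset_iff]; exact hA.1
  · have : F.filter (fun B => B ⊂ σ • A) = σ • (F.filter (fun B => B ⊂ A)) := by
      ext B
      rw [mem_filter, Finset.mem_smul_finset]
      constructor
      · rintro ⟨hB, hBA⟩
        rw [← h, Finset.mem_smul_finset] at hB
        obtain ⟨C, hC, rfl⟩ := hB
        exact ⟨C, mem_filter.2 ⟨hC, (smul_ssubset_iff σ).1 hBA⟩, rfl⟩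
      · rintro ⟨C, hC, rfl⟩
        rw [mem_filter] at hC
        refine ⟨?_, (smul_ssubset_iff σ).2 hC.2⟩
        rw [← h, Finset.smul_mem_smul_finset_iff]; exact hC.1
    rw [this, sup_id_smul]
    intro h2
    exact hA.2 ((MulAction.injective σ) h2)

/-- The join-irreducible members containing `a` but not `b`. -/
def I (a b : α) (F : Finset (Finset α)) : Finset (Finset α) :=
  (J F).filter (fun A => a ∈ A ∧ b ∉ A)

/-- (b1) -/
lemma fx_many (σ : Equiv.Perm α) (a : α) (R : ℕ) :
    ((Fx σ).filter (fun F => R ≤ (I a (σ a) F).card)).card * 2 ^ R ≤ (U α).card := by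
  classical
  set X := (Fx σ).filter (fun F => R ≤ (I a (σ a) F).card) with hX
  have h0 : X.card * 2 ^ R ≤ (X.sigma (fun F => (I a (σ a) F).powerset)).card := by
    rw [card_sigma]
    calc X.card * 2 ^ R = ∑ F ∈ X, 2 ^ R := by rw [sum_const, smul_eq_mul]
      _ ≤ _ := by
        apply Finset.sum_le_sum
        intro F hF
        rw [card_powerset]
        exact Nat.pow_le_pow_right (by norm_num) (mem_filter.1 hF).2
  refine h0.trans ?_
  apply Finset.card_le_card_of_injOn
    (fun p : (Σ _ : Finset (Finset α), Finset (Finset α)) => p.1 \ p.2)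
  · rintro ⟨F, R'⟩ hFR
    simp only [coe_sigma, Set.mem_sigma_iff, mem_coe, mem_powerset] at hFR
    obtain ⟨hF, hR⟩ := hFR
    rw [hX, mem_filter, Fx, mem_filter, mem_U] at hF
    rw [mem_coe, mem_U]
    exact hF.1.1.sdiff (hR.trans (filter_subset _ _))
  · rintro ⟨F, R₁⟩ h1 ⟨F', R₂⟩ h2 heq
    simp only [coe_sigma, Set.mem_sigma_iff, mem_coe, mem_powerset] at h1 h2
    simp only at heq
    have key : ∀ {F R' : Finset (Finset α)}, F ∈ X → R' ⊆ I a (σ a) F →
        F = (F \ R') ∪ σ⁻¹ • (F \ R') := by
      intro F R' hF hR'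
      rw [hX, mem_filter, Fx, mem_filter, mem_U] at hF
      have hσ : σ • F = F := hF.1.2
      have hσ' : σ⁻¹ • F = F := by
        conv_lhs => rw [← hσ]
        rw [inv_smul_smul]
      ext A
      rw [mem_union, mem_sdiff]
      constructor
      · intro hA
        by_cases hAR : A ∈ R'
        · right
          rw [Finset.mem_inv_smul_finset_iff, mem_sdiff]
          refine ⟨?_, ?_⟩
          · rw [← hσ, Finset.smul_mem_smul_finset_iff]; exact hA
          · intro hc
            have t1 := (mem_filter.1 (hR' hAR)).2.1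
            have t2 := (mem_filter.1 (hR' hc)).2.2
            apply t2
            have : σ a = σ • a := rfl
            rw [this, Finset.smul_mem_smul_finset_iff]
            exact t1
        · exact Or.inl ⟨hA, hAR⟩
      · rintro (h | h)
        · exact h.1
        · rw [← hσ']
          rw [Finset.mem_inv_smul_finset_iff] at h ⊢
          exact (mem_sdiff.1 h).1
    have e1 : F = F' := by
      rw [key h1.1 h1.2, key h2.1 h2.2, heq]
    subst e1
    have e3 : R₁ = R₂ := by
      have t1 : F \ (F \ R₁) = R₁ := by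
        rw [_root_.sdiff_sdiff_eq_self ((h1.2.trans (filter_subset _ _)).trans (J_subset F))]
      have t2 : F \ (F \ R₂) = R₂ := by
        rw [_root_.sdiff_sdiff_eq_self ((h2.2.trans (filter_subset _ _)).trans (J_subset F))]
      rw [← t1, ← t2, heq]
    subst e3
    rfl

/-- The non-constant join-irreducible members (w.r.t. the pair `a, b`). -/
def Jn (a b : α) (F : Finset (Finset α)) : Finset (Finset α) :=
  (J F).filter (fun A => ¬ (a ∈ A ↔ b ∈ A))

omit [Fintype α] in
lemma smul_pow_eq {F : Finset (Finset α)} {σ : Equiv.Perm α} (h : σ • F = F) (j : ℕ) :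
    σ ^ j • F = F := by
  induction j with
  | zero => simp
  | succ j ih => rw [pow_succ, mul_smul, h, ih]

omit [Fintype α] in
lemma Jn_card_le {F : Finset (Finset α)} {σ : Equiv.Perm α} (h : σ • F = F) (a : α) {p : ℕ}
    (hp : σ ^ p = 1) (hp0 : 0 < p) :
    (Jn a (σ a) F).card ≤ p * (I a (σ a) F).card := by
  classical
  have hsub : Jn a (σ a) F ⊆ (Finset.range p).biUnion (fun j => (σ ^ j) • (I a (σ a) F)) := by
    intro A hA
    rw [Jn, mem_filter] at hA
    rw [mem_biUnion]
    by_cases ha : a ∈ A
    · have hb : σ a ∉ A := fun hb => hA.2 ⟨fun _ => hb, fun _ => ha⟩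
      refine ⟨0, mem_range.2 hp0, ?_⟩
      rw [pow_zero, one_smul]
      exact mem_filter.2 ⟨hA.1, ha, hb⟩
    · have hb : σ a ∈ A := by
        by_contra hb
        exact hA.2 ⟨fun h => absurd h ha, fun h => absurd h hb⟩
      -- there is `j` with `σ^(j+1) a ∈ A` and `σ^(j+2) a ∉ A`
      have hex : ∃ j, (σ ^ (j + 1)) a ∉ A := by
        refine ⟨p - 1, ?_⟩
        rw [Nat.sub_add_cancel hp0, hp]
        exact ha
      classical
      set j := Nat.find hex with hj
      have hj1 : (σ ^ (j + 1)) a ∉ A := Nat.find_spec hex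
      have hj0 : j ≠ 0 := by
        intro h0
        rw [h0] at hj1
        simp only [zero_add, pow_one] at hj1
        exact hj1 hb
      have hjle : j ≤ p - 1 := by
        apply Nat.find_min' hex
        rw [Nat.sub_add_cancel hp0, hp]
        exact ha
      have hjm : (σ ^ j) a ∈ A := by
        have := Nat.find_min hex (m := j - 1) (by omega)
        rw [not_not, Nat.sub_add_cancel (by omega)] at this
        exact this
      refine ⟨j, mem_range.2 (by omega), ?_⟩
      rw [← Finset.inv_smul_mem_iff]
      have hF' : (σ ^ j)⁻¹ • F = F := by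
        conv_lhs => rw [← smul_pow_eq h j]
        rw [inv_smul_smul]
      refine mem_filter.2 ⟨smul_mem_J hF' hA.1, ?_, ?_⟩
      · rw [Finset.mem_inv_smul_finset_iff]; exact hjm
      · rw [Finset.mem_inv_smul_finset_iff]
        have : (σ ^ j) • (σ a) = (σ ^ (j + 1)) a := by
          rw [pow_succ]; rfl
        rw [this]; exact hj1
  refine (card_le_card hsub).trans (card_biUnion_le.trans ?_)
  calc ∑ j ∈ Finset.range p, ((σ ^ j) • I a (σ a) F).card
      = ∑ j ∈ Finset.range p, (I a (σ a) F).card := by
        apply Finset.sum_congr rfl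
        intro j _
        rw [Finset.card_smul_finset]
    _ ≤ _ := by rw [sum_const, card_range, smul_eq_mul]

/-- The trace of the constant members. -/
def Gc (a b : α) (F : Finset (Finset α)) : Finset (Finset α) :=
  (F.filter (fun A => (a ∈ A ↔ b ∈ A))).image (fun A => A.erase b)

omit [Fintype α] in
lemma Gc_UC {a b : α} {F : Finset (Finset α)} (hF : UC F) : UC (Gc a b F) := by
  refine ⟨?_, ?_⟩
  · rw [Gc, mem_image]
    exact ⟨∅, mem_filter.2 ⟨hF.1, by simp⟩, by simp⟩
  · intro A hA B hB
    rw [Gc, mem_image] at hA hB ⊢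
    obtain ⟨A, hA, rfl⟩ := hA
    obtain ⟨B, hB, rfl⟩ := hB
    rw [mem_filter] at hA hB
    refine ⟨A ∪ B, mem_filter.2 ⟨hF.2 _ hA.1 _ hB.1, ?_⟩, ?_⟩
    · rw [mem_union, mem_union, hA.2, hB.2]
    · rw [erase_union_distrib]

/-- (b2) -/
lemma fx_few (σ : Equiv.Perm α) (a : α) (hab : σ a ≠ a) (R : ℕ)
    {p : ℕ} (hp : σ ^ p = 1) (hp0 : 0 < p) (hpn : p ≤ Fintype.card α) :
    ((Fx σ).filter (fun F => (I a (σ a) F).card ≤ R)).card ≤
      2 ^ ((Fintype.card α + 1) * (Fintype.card α * R)) * (Ub (σ a)).card := by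
  classical
  set b := σ a with hb
  set n := Fintype.card α with hn
  have h1 : ((Fx σ).filter (fun F => (I a b F).card ≤ R)).card ≤
      ((((univ : Finset (Finset α)).powerset.filter (fun S => S.card ≤ n * R)) ×ˢ (Ub b))).card := by
    apply Finset.card_le_card_of_injOn (fun F => (Jn a b F, Gc a b F))
    · intro F hF
      rw [mem_coe, mem_filter, Fx, mem_filter, mem_U] at hF
      rw [mem_coe, mem_product, mem_filter]
      refine ⟨⟨by simp, ?_⟩, ?_⟩
      · simp only
        calc (Jn a b F).card ≤ p * (I a b F).card := Jn_card_le hF.1.2 a hp hp0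
          _ ≤ n * R := Nat.mul_le_mul hpn hF.2
      · rw [mem_Ub]
        refine ⟨Gc_UC hF.1.1, ?_⟩
        intro A hA
        simp only [Gc, mem_image] at hA
        obtain ⟨B, -, rfl⟩ := hA
        exact notMem_erase _ _
    · intro F hF F' hF' heq
      rw [mem_coe, mem_filter, Fx, mem_filter, mem_U] at hF hF'
      simp only [Prod.mk.injEq] at heq
      have hC : ∀ F : Finset (Finset α), F.filter (fun A => (a ∈ A ↔ b ∈ A)) =
          (Gc a b F).image (fun A => if a ∈ A then insert b A else A) := by
        intro F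
        rw [Gc, image_image]
        have : ∀ A ∈ F.filter (fun A => (a ∈ A ↔ b ∈ A)),
            ((fun A => if a ∈ A then insert b A else A) ∘ fun A => A.erase b) A = id A := by
          intro A hA
          rw [mem_filter] at hA
          simp only [Function.comp, id]
          have hne : a ≠ b := fun h => hab h.symm
          by_cases ha : a ∈ A
          · rw [if_pos (mem_erase.2 ⟨hne, ha⟩), insert_erase (hA.2.1 ha)]
          · have hb' : b ∉ A := fun h => ha (hA.2.2 h)
            rw [if_neg (fun h => ha (mem_erase.1 h).2), erase_eq_of_notMem hb']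
        rw [image_congr this, image_id]
      have hcov : ∀ F : Finset (Finset α),
          J F ⊆ Jn a b F ∪ F.filter (fun A => (a ∈ A ↔ b ∈ A)) := by
        intro F A hA
        by_cases hc : (a ∈ A ↔ b ∈ A)
        · exact mem_union_right _ (mem_filter.2 ⟨J_subset F hA, hc⟩)
        · exact mem_union_left _ (mem_filter.2 ⟨hA, hc⟩)
      have hsub : ∀ F : Finset (Finset α),
          Jn a b F ∪ F.filter (fun A => (a ∈ A ↔ b ∈ A)) ⊆ F := by
        intro F
        exact union_subset ((filter_subset _ _).trans (J_subset F)) (filter_subset _ _)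
      rw [hF.1.1.recover (hcov F) (hsub F), hF'.1.1.recover (hcov F') (hsub F'), hC F, hC F',
        heq.1, heq.2]
  refine h1.trans ?_
  rw [card_product]
  apply Nat.mul_le_mul_right
  refine (card_filter_card_le _ _).trans ?_
  rw [card_univ, Fintype.card_finset, ← hn, pow_mul 2 (n + 1)]
  apply Nat.pow_le_pow_left
  rw [pow_succ]
  have := Nat.one_le_two_pow (n := n)
  omega

/-- (b): bound for the number of families fixed by a nontrivial permutation, in terms of the
number of families avoiding a point. -/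
lemma exists_fx_le {σ : Equiv.Perm α} (hσ : σ ≠ 1) (R : ℕ) :
    ∃ b : α, (Fx σ).card * 2 ^ R ≤ (U α).card +
      2 ^ R * (2 ^ ((Fintype.card α + 1) * (Fintype.card α * R)) * (Ub b).card) := by
  classical
  -- pass to a power of prime order
  have ho : orderOf σ ≠ 1 := by rwa [Ne, orderOf_eq_one_iff]
  have hpos : 0 < orderOf σ := orderOf_pos σ
  set p := (orderOf σ).minFac with hp
  have hpp : p.Prime := Nat.minFac_prime ho
  have hpd : p ∣ orderOf σ := Nat.minFac_dvd _
  set τ := σ ^ (orderOf σ / p) with hτ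
  have hτo : orderOf τ = p := by
    rw [hτ]
    exact orderOf_pow_orderOf_div hpos.ne' hpd
  have hτp : τ ^ p = 1 := by rw [← hτo]; exact pow_orderOf_eq_one τ
  have hτ1 : τ ≠ 1 := by
    intro h
    rw [h, orderOf_one] at hτo
    exact hpp.one_lt.ne hτo
  have hpn : p ≤ Fintype.card α := by
    have h1 : orderOf τ ∣ Fintype.card (Equiv.Perm α) := orderOf_dvd_card
    rw [hτo, Fintype.card_perm] at h1
    exact (hpp.dvd_factorial).1 h1
  obtain ⟨a, ha⟩ : ∃ a, τ a ≠ a := by
    by_contra hcon
    push Not at hcon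
    exact hτ1 (Equiv.ext hcon)
  refine ⟨τ a, ?_⟩
  have hsub : Fx σ ⊆ Fx τ := by
    intro F hF
    rw [Fx, mem_filter] at hF ⊢
    exact ⟨hF.1, smul_pow_eq hF.2 _⟩
  have h1 := fx_many τ a R
  have h2 := fx_few τ a ha R hτp hpp.pos hpn
  have h3 : (Fx τ).card ≤ ((Fx τ).filter (fun F => R ≤ (I a (τ a) F).card)).card +
      ((Fx τ).filter (fun F => (I a (τ a) F).card ≤ R)).card := by
    rw [← card_union_add_card_inter]
    refine le_trans (card_le_card ?_) (Nat.le_add_right _ _)
    intro F hF
    rw [mem_union, mem_filter, mem_filter]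
    rcases le_total R (I a (τ a) F).card with h | h
    · exact Or.inl ⟨hF, h⟩
    · exact Or.inr ⟨hF, h⟩
  calc (Fx σ).card * 2 ^ R ≤ (Fx τ).card * 2 ^ R := Nat.mul_le_mul_right _ (card_le_card hsub)
    _ ≤ (((Fx τ).filter (fun F => R ≤ (I a (τ a) F).card)).card +
      ((Fx τ).filter (fun F => (I a (τ a) F).card ≤ R)).card) * 2 ^ R :=
        Nat.mul_le_mul_right _ h3
    _ = ((Fx τ).filter (fun F => R ≤ (I a (τ a) F).card)).card * 2 ^ R +
      2 ^ R * ((Fx τ).filter (fun F => (I a (τ a) F).card ≤ R)).card := by ring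
    _ ≤ _ := Nat.add_le_add h1 (Nat.mul_le_mul_left _ h2)

/-- The point `i` is redundant in `F`: its row is the join of other rows. -/
def Redundant (F : Finset (Finset α)) (i : α) : Prop :=
  ∀ A ∈ F, i ∈ A → ∃ j ∈ A, j ≠ i ∧ ∀ B ∈ F, j ∈ B → i ∈ B

instance (F : Finset (Finset α)) (i : α) : Decidable (Redundant F i) := by
  unfold Redundant; infer_instance

/-- (c) -/
lemma redundant_le (i : α) :
    ((U α).filter (fun F => Redundant F i)).card ≤ 2 ^ (Fintype.card α) * (Ub i).card := by
  classical
  have h1 : ((U α).filter (fun F => Redundant F i)).card ≤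
      ((univ : Finset (Finset α)) ×ˢ (Ub i)).card := by
    apply Finset.card_le_card_of_injOn
      (fun F => (univ.filter (fun j => j ≠ i ∧ ∀ B ∈ F, j ∈ B → i ∈ B),
        F.image (fun A => A.erase i)))
    · intro F hF
      rw [mem_coe, mem_filter, mem_U] at hF
      rw [mem_coe, mem_product]
      refine ⟨mem_univ _, ?_⟩
      rw [mem_Ub]
      refine ⟨⟨?_, ?_⟩, ?_⟩
      · exact mem_image.2 ⟨∅, hF.1.1, by simp⟩
      · intro A hA B hB
        simp only [mem_image] at hA hB ⊢
        obtain ⟨A, hA, rfl⟩ := hA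
        obtain ⟨B, hB, rfl⟩ := hB
        exact ⟨A ∪ B, hF.1.2 _ hA _ hB, erase_union_distrib _ _ _⟩
      · intro A hA
        simp only [mem_image] at hA
        obtain ⟨A, -, rfl⟩ := hA
        exact notMem_erase _ _
    · intro F hF F' hF' heq
      rw [mem_coe, mem_filter, mem_U] at hF hF'
      simp only [Prod.mk.injEq] at heq
      have key : ∀ {F F' : Finset (Finset α)}, Redundant F i → Redundant F' i →
          univ.filter (fun j => j ≠ i ∧ ∀ B ∈ F, j ∈ B → i ∈ B) =
            univ.filter (fun j => j ≠ i ∧ ∀ B ∈ F', j ∈ B → i ∈ B) →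
          F.image (fun A => A.erase i) = F'.image (fun A => A.erase i) → F ⊆ F' := by
        intro F F' hR hR' hS hG A hA
        have : A.erase i ∈ F'.image (fun A => A.erase i) := by
          rw [← hG]; exact mem_image_of_mem _ hA
        rw [mem_image] at this
        obtain ⟨B, hB, hBA⟩ := this
        have hmem : ∀ j, j ≠ i → (j ∈ A ↔ j ∈ B) := by
          intro j hj
          have := congrArg (fun T => j ∈ T) hBA
          simp only [mem_erase, ne_eq, hj, not_false_eq_true, true_and] at this
          exact (Iff.of_eq this).symm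
        have hi : i ∈ A ↔ i ∈ B := by
          constructor
          · intro hiA
            obtain ⟨j, hjA, hji, hj⟩ := hR A hA hiA
            have hjS : j ∈ univ.filter (fun j => j ≠ i ∧ ∀ B ∈ F', j ∈ B → i ∈ B) := by
              rw [← hS]; exact mem_filter.2 ⟨mem_univ _, hji, hj⟩
            exact (mem_filter.1 hjS).2.2 B hB ((hmem j hji).1 hjA)
          · intro hiB
            obtain ⟨j, hjB, hji, hj⟩ := hR' B hB hiB
            have hjS : j ∈ univ.filter (fun j => j ≠ i ∧ ∀ B ∈ F, j ∈ B → i ∈ B) := by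
              rw [hS]; exact mem_filter.2 ⟨mem_univ _, hji, hj⟩
            exact (mem_filter.1 hjS).2.2 A hA ((hmem j hji).2 hjB)
        have hAB : A = B := by
          ext j
          by_cases hj : j = i
          · rw [hj]; exact hi
          · exact hmem j hj
        rw [hAB]; exact hB
      exact Subset.antisymm (key hF.2 hF'.2 heq.1 heq.2)
        (key hF'.2 hF.2 heq.1.symm heq.2.symm)
  refine h1.trans ?_
  rw [card_product, card_univ, Fintype.card_finset]

end Pool.Agent.BoolD
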