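import Pool.Agent.Lib.MP_380ab1_co.Fixed

/-!
# Boolean matrices, Green's relations and the number of D-classes
-/

open Finset
open scoped Pointwise

namespace Pool.Agent.BoolD

/-- `n × m` matrices over the Boolean semiring `{0,1}`. -/
abbrev BMat (n m : ℕ) := Fin n → Fin m → Bool

/-- The Boolean matrix product: `(X * Y) i j = max_k min (X i k) (Y k j)`. -/
def bmul {a b c : ℕ} (X : BMat a b) (Y : BMat b c) : BMat a c :=
  fun i j => decide (∃ k, X i k = true ∧ Y k j = true)

/-- Green's relation `L` on `n × m` matrices. -/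
def GreenL {n m : ℕ} (A C : BMat n m) : Prop :=
  ∃ X Y : BMat n n, A = bmul X C ∧ C = bmul Y A

/-- Green's relation `R` on `n × m` matrices. -/
def GreenR {n m : ℕ} (A C : BMat n m) : Prop :=
  ∃ U V : BMat m m, A = bmul C U ∧ C = bmul A V

/-- Green's relation `D = L ∘ R` on `n × m` matrices. -/
def GreenD {n m : ℕ} (A C : BMat n m) : Prop :=
  ∃ E : BMat n m, GreenL A E ∧ GreenR E C

/-- The set of D-classes of `n × m` matrices. -/
def DClasses (n m : ℕ) : Set (Set (BMat n m)) :=
  Set.range fun A : BMat n m => {C | GreenD A C}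

/-- `d(n,m)`, the number of D-classes of `n × m` matrices. -/
noncomputable def numD (n m : ℕ) : ℕ := (DClasses n m).ncard

lemma bmul_apply {a b c : ℕ} (X : BMat a b) (Y : BMat b c) (i : Fin a) (j : Fin c) :
    bmul X Y i j = true ↔ ∃ k, X i k = true ∧ Y k j = true := by
  simp [bmul]

lemma bmul_assoc {a b c d : ℕ} (X : BMat a b) (Y : BMat b c) (Z : BMat c d) :
    bmul (bmul X Y) Z = bmul X (bmul Y Z) := by
  funext i j
  rw [Bool.eq_iff_iff, bmul_apply, bmul_apply]
  constructor
  · rintro ⟨k, hk, hz⟩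
    rw [bmul_apply] at hk
    obtain ⟨l, hl, hk⟩ := hk
    exact ⟨l, hl, (bmul_apply _ _ _ _).2 ⟨k, hk, hz⟩⟩
  · rintro ⟨l, hl, hk⟩
    rw [bmul_apply] at hk
    obtain ⟨k, hk, hz⟩ := hk
    exact ⟨k, (bmul_apply _ _ _ _).2 ⟨l, hl, hk⟩, hz⟩

/-- The identity matrix. -/
def bone (n : ℕ) : BMat n n := fun i j => decide (i = j)

lemma bone_bmul {n m : ℕ} (A : BMat n m) : bmul (bone n) A = A := by
  funext i j
  rw [Bool.eq_iff_iff, bmul_apply]
  simp [bone]

lemma bmul_bone {n m : ℕ} (A : BMat n m) : bmul A (bone m) = A := by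
  funext i j
  rw [Bool.eq_iff_iff, bmul_apply]
  simp [bone]

lemma GreenL.refl {n m : ℕ} (A : BMat n m) : GreenL A A :=
  ⟨bone n, bone n, (bone_bmul A).symm, (bone_bmul A).symm⟩

lemma GreenR.refl {n m : ℕ} (A : BMat n m) : GreenR A A :=
  ⟨bone m, bone m, (bmul_bone A).symm, (bmul_bone A).symm⟩

lemma GreenL.symm {n m : ℕ} {A C : BMat n m} (h : GreenL A C) : GreenL C A := by
  obtain ⟨X, Y, h1, h2⟩ := h
  exact ⟨Y, X, h2, h1⟩

lemma GreenR.symm {n m : ℕ} {A C : BMat n m} (h : GreenR A C) : GreenR C A := by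
  obtain ⟨X, Y, h1, h2⟩ := h
  exact ⟨Y, X, h2, h1⟩

lemma GreenL.trans {n m : ℕ} {A B C : BMat n m} (h : GreenL A B) (h' : GreenL B C) :
    GreenL A C := by
  obtain ⟨X, Y, h1, h2⟩ := h
  obtain ⟨X', Y', h1', h2'⟩ := h'
  refine ⟨bmul X X', bmul Y' Y, ?_, ?_⟩
  · rw [bmul_assoc, ← h1', ← h1]
  · rw [bmul_assoc, ← h2, ← h2']

lemma GreenR.trans {n m : ℕ} {A B C : BMat n m} (h : GreenR A B) (h' : GreenR B C) :
    GreenR A C := by
  obtain ⟨X, Y, h1, h2⟩ := h
  obtain ⟨X', Y', h1', h2'⟩ := h'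
  refine ⟨bmul X' X, bmul Y Y', ?_, ?_⟩
  · rw [← bmul_assoc, ← h1', ← h1]
  · rw [← bmul_assoc, ← h2, ← h2']

/-- `L` and `R` commute. -/
lemma greenL_greenR_comm {n m : ℕ} {A B C : BMat n m} (h : GreenL A B) (h' : GreenR B C) :
    ∃ B' : BMat n m, GreenR A B' ∧ GreenL B' C := by
  obtain ⟨X, Y, h1, h2⟩ := h
  obtain ⟨P, V, h3, h4⟩ := h'
  -- A = X B, B = Y A, B = C P, C = B V
  refine ⟨bmul A V, ⟨P, V, ?_, rfl⟩, ⟨X, Y, ?_, ?_⟩⟩
  · -- A = (A V) P : A = X B = X C P = X B V P = A V P
    rw [bmul_assoc]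
    calc A = bmul X B := h1
      _ = bmul X (bmul C P) := by rw [← h3]
      _ = bmul X (bmul (bmul B V) P) := by rw [← h4]
      _ = bmul (bmul X B) (bmul V P) := by rw [bmul_assoc, bmul_assoc]
      _ = bmul A (bmul V P) := by rw [← h1]
  · -- A V = X C
    rw [h4, ← bmul_assoc, ← h1]
  · -- C = Y (A V)
    rw [← bmul_assoc, ← h2, ← h4]

lemma greenR_greenL_comm {n m : ℕ} {A B C : BMat n m} (h : GreenR A B) (h' : GreenL B C) :
    ∃ B' : BMat n m, GreenL A B' ∧ GreenR B' C := by
  obtain ⟨B', h1, h2⟩ := greenL_greenR_comm h'.symm h.symm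
  exact ⟨B', h2.symm, h1.symm⟩

/-- `D` is an equivalence relation. -/
lemma greenD_equivalence (n m : ℕ) : Equivalence (GreenD (n := n) (m := m)) := by
  refine ⟨fun A => ⟨A, GreenL.refl A, GreenR.refl A⟩, ?_, ?_⟩
  · rintro A C ⟨E, h1, h2⟩
    obtain ⟨B, h3, h4⟩ := greenL_greenR_comm h1 h2
    exact ⟨B, h4.symm, h3.symm⟩
  · rintro A B C ⟨E, h1, h2⟩ ⟨E', h3, h4⟩
    obtain ⟨B', h5, h6⟩ := greenR_greenL_comm h2 h3
    exact ⟨B', h1.trans h5, h6.trans h4⟩

lemma dclass_eq_iff {n m : ℕ} {A B : BMat n m} :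
    ({C | GreenD A C} : Set (BMat n m)) = {C | GreenD B C} ↔ GreenD A B := by
  have he := greenD_equivalence n m
  constructor
  · intro h
    have : B ∈ ({C | GreenD B C} : Set (BMat n m)) := he.refl B
    rw [← h] at this
    exact this
  · intro h
    ext C
    exact ⟨fun h' => he.trans (he.symm h) h', fun h' => he.trans h h'⟩

/-- The `k`-th column of `A`, as a set of row indices. -/
def col {n m : ℕ} (A : BMat n m) (k : Fin m) : Finset (Fin n) :=
  univ.filter (fun i => A i k = true)

@[simp] lemma mem_col {n m : ℕ} (A : BMat n m) (k : Fin m) (i : Fin n) :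
    i ∈ col A k ↔ A i k = true := by simp [col]

/-- The column space of `A`. -/
def colSpace {n m : ℕ} (A : BMat n m) : Finset (Finset (Fin n)) :=
  (univ : Finset (Finset (Fin m))).image (fun T => T.biUnion (col A))

lemma mem_colSpace {n m : ℕ} (A : BMat n m) (S : Finset (Fin n)) :
    S ∈ colSpace A ↔ ∃ T : Finset (Fin m), T.biUnion (col A) = S := by
  simp [colSpace]

lemma col_mem_colSpace {n m : ℕ} (A : BMat n m) (k : Fin m) : col A k ∈ colSpace A :=
  (mem_colSpace A _).2 ⟨{k}, by simp⟩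

lemma colSpace_UC {n m : ℕ} (A : BMat n m) : UC (colSpace A) := by
  refine ⟨(mem_colSpace A _).2 ⟨∅, by simp⟩, ?_⟩
  intro S hS S' hS'
  rw [mem_colSpace] at hS hS' ⊢
  obtain ⟨T, rfl⟩ := hS
  obtain ⟨T', rfl⟩ := hS'
  exact ⟨T ∪ T', by rw [union_biUnion]⟩

lemma colSpace_subset_iff {n m : ℕ} (A C : BMat n m) :
    colSpace A ⊆ colSpace C ↔ ∃ P : BMat m m, A = bmul C P := by
  constructor
  · intro h
    have h' : ∀ k, ∃ T : Finset (Fin m), T.biUnion (col C) = col A k := fun k =>
      (mem_colSpace C _).1 (h (col_mem_colSpace A k))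
    choose T hT using h'
    refine ⟨fun l k => decide (l ∈ T k), ?_⟩
    funext i k
    rw [Bool.eq_iff_iff, bmul_apply]
    have := congrArg (fun S => i ∈ S) (hT k)
    simp only [mem_biUnion, mem_col, eq_iff_iff] at this
    rw [← this]
    constructor
    · rintro ⟨l, hl, hi⟩
      exact ⟨l, hi, by simpa using hl⟩
    · rintro ⟨l, hi, hl⟩
      exact ⟨l, by simpa using hl, hi⟩
  · rintro ⟨P, rfl⟩ S hS
    rw [mem_colSpace] at hS
    obtain ⟨T, rfl⟩ := hS
    have hU := colSpace_UC C
    have : T.biUnion (col (bmul C P)) = (T.image (col (bmul C P))).sup id := by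
      ext i; simp [Finset.mem_sup]
    rw [this]
    apply hU.sup_mem
    intro S hS
    rw [mem_image] at hS
    obtain ⟨k, -, rfl⟩ := hS
    rw [mem_colSpace]
    refine ⟨univ.filter (fun l => P l k = true), ?_⟩
    ext i
    simp only [mem_biUnion, mem_filter, mem_univ, true_and, mem_col, bmul_apply]
    constructor
    · rintro ⟨l, h1, h2⟩; exact ⟨l, h2, h1⟩
    · rintro ⟨l, h1, h2⟩; exact ⟨l, h2, h1⟩

lemma greenR_iff {n m : ℕ} (A C : BMat n m) : GreenR A C ↔ colSpace A = colSpace C := by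
  constructor
  · rintro ⟨P, V, h1, h2⟩
    exact Subset.antisymm ((colSpace_subset_iff A C).2 ⟨P, h1⟩)
      ((colSpace_subset_iff C A).2 ⟨V, h2⟩)
  · intro h
    obtain ⟨P, hP⟩ := (colSpace_subset_iff A C).1 h.subset
    obtain ⟨V, hV⟩ := (colSpace_subset_iff C A).1 h.symm.subset
    exact ⟨P, V, hP, hV⟩

/-- Permuting the rows. -/
def permRows {n m : ℕ} (σ : Equiv.Perm (Fin n)) (A : BMat n m) : BMat n m :=
  fun i k => A (σ⁻¹ i) k

lemma greenL_permRows {n m : ℕ} (σ : Equiv.Perm (Fin n)) (A : BMat n m) :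
    GreenL A (permRows σ A) := by
  refine ⟨fun i j => decide (j = σ i), fun i j => decide (j = σ⁻¹ i), ?_, ?_⟩
  · funext i k
    rw [Bool.eq_iff_iff, bmul_apply]
    simp [permRows]
  · funext i k
    rw [Bool.eq_iff_iff, bmul_apply]
    simp [permRows]

lemma colSpace_permRows {n m : ℕ} (σ : Equiv.Perm (Fin n)) (A : BMat n m) :
    colSpace (permRows σ A) = σ • colSpace A := by
  have hcol : ∀ k, col (permRows σ A) k = σ • col A k := by
    intro k
    ext i
    rw [mem_col, ← Finset.inv_smul_mem_iff, mem_col]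
    rfl
  have hbi : ∀ T : Finset (Fin m), T.biUnion (col (permRows σ A)) = σ • T.biUnion (col A) := by
    intro T
    ext i
    rw [← Finset.inv_smul_mem_iff]
    simp only [mem_biUnion, hcol, ← Finset.inv_smul_mem_iff]
  ext S
  rw [mem_colSpace, Finset.mem_smul_finset]
  constructor
  · rintro ⟨T, rfl⟩
    exact ⟨T.biUnion (col A), (mem_colSpace A _).2 ⟨T, rfl⟩, (hbi T).symm⟩
  · rintro ⟨S', hS', rfl⟩
    obtain ⟨T, rfl⟩ := (mem_colSpace A _).1 hS'
    exact ⟨T, hbi T⟩

/-- If the column space of `A` has no redundant point then every matrix `L`-equivalent to `A` is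
obtained from `A` by a permutation of the rows. -/
lemma greenL_reduced {n m : ℕ} {A E : BMat n m} (h : GreenL A E)
    (hred : ∀ i, ¬ Redundant (colSpace A) i) :
    ∃ σ : Equiv.Perm (Fin n), E = permRows σ A := by
  classical
  obtain ⟨X, Y, hA, hE⟩ := h
  -- matrix-level reducedness
  have hmat : ∀ i : Fin n, ∀ S : Finset (Fin n), i ∉ S →
      ¬ ∀ k, (A i k = true ↔ ∃ j ∈ S, A j k = true) := by
    intro i S hiS hrow
    apply hred i
    intro B hB hiB
    obtain ⟨T, rfl⟩ := (mem_colSpace A _).1 hB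
    rw [mem_biUnion] at hiB
    obtain ⟨k, hkT, hik⟩ := hiB
    rw [mem_col] at hik
    obtain ⟨j, hjS, hjk⟩ := (hrow k).1 hik
    refine ⟨j, mem_biUnion.2 ⟨k, hkT, (mem_col _ _ _).2 hjk⟩, ?_, ?_⟩
    · rintro rfl; exact hiS hjS
    · intro B' hB' hjB'
      obtain ⟨T', rfl⟩ := (mem_colSpace A _).1 hB'
      rw [mem_biUnion] at hjB' ⊢
      obtain ⟨k', hk', hjk'⟩ := hjB'
      rw [mem_col] at hjk'
      exact ⟨k', hk', (mem_col _ _ _).2 ((hrow k').2 ⟨j, hjS, hjk'⟩)⟩
  -- for each `i` there is `j` with equal rows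
  have hex : ∀ i, ∃ j, ∀ k, A i k = E j k := by
    intro i
    by_contra hcon
    push Not at hcon
    apply hmat i (univ.filter (fun l => l ≠ i ∧ ∀ k, A l k = true → A i k = true)) (by simp)
    intro k
    constructor
    · intro hik
      have h1 : bmul X E i k = true := by rw [← hA]; exact hik
      rw [bmul_apply] at h1
      obtain ⟨j, hXij, hEjk⟩ := h1
      have hEjk' := hEjk
      rw [hE, bmul_apply] at hEjk
      obtain ⟨l, hYjl, hAlk⟩ := hEjk
      refine ⟨l, mem_filter.2 ⟨mem_univ _, ?_, ?_⟩, hAlk⟩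
      · rintro rfl
        obtain ⟨k', hk'⟩ := hcon j
        apply hk'
        rw [Bool.eq_iff_iff]
        constructor
        · intro hA'
          rw [hE, bmul_apply]
          exact ⟨l, hYjl, hA'⟩
        · intro hE'
          rw [hA, bmul_apply]
          exact ⟨j, hXij, hE'⟩
      · intro k' hk'
        rw [hA, bmul_apply]
        refine ⟨j, hXij, ?_⟩
        rw [hE, bmul_apply]
        exact ⟨l, hYjl, hk'⟩
    · rintro ⟨j, hj, hjk⟩
      exact (mem_filter.1 hj).2.2 k hjk
  choose φ hφ using hex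
  have hinj : Function.Injective φ := by
    intro i i' hii
    by_contra hne
    apply hmat i {i'} (by simpa using hne)
    intro k
    simp only [mem_singleton, exists_eq_left]
    rw [hφ i k, hφ i' k, hii]
  have hbij : Function.Bijective φ := Finite.injective_iff_bijective.1 hinj
  refine ⟨Equiv.ofBijective φ hbij, ?_⟩
  funext i k
  have h1 := hφ ((Equiv.ofBijective φ hbij)⁻¹ i) k
  have h2 : φ ((Equiv.ofBijective φ hbij)⁻¹ i) = i := by
    have : (Equiv.ofBijective φ hbij) ((Equiv.ofBijective φ hbij)⁻¹ i) = i := by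
      rw [← Equiv.Perm.mul_apply, mul_inv_cancel, Equiv.Perm.one_apply]
    exact this
  rw [h2] at h1
  exact h1.symm

/-- Every union-closed family is a column space, once there are at least `2 ^ n` columns. -/
lemma exists_colSpace_eq {n m : ℕ} (hm : 2 ^ n ≤ m) {F : Finset (Finset (Fin n))} (hF : UC F) :
    ∃ A : BMat n m, colSpace A = F := by
  classical
  have hcard : F.card ≤ m := by
    refine (card_le_univ F).trans ?_
    rw [Fintype.card_finset, Fintype.card_fin]
    exact hm
  have hne : Nonempty F := ⟨⟨∅, hF.1⟩⟩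
  have hcard' : Fintype.card F ≤ Fintype.card (Fin m) := by
    rw [Fintype.card_coe, Fintype.card_fin]; exact hcard
  obtain ⟨e⟩ := Function.Embedding.nonempty_of_card_le hcard'
  let g : Fin m → F := Function.invFun e
  have hg : Function.Surjective g := Function.invFun_surjective e.injective
  refine ⟨fun i k => decide (i ∈ (g k : Finset (Fin n))), ?_⟩
  have hcol : ∀ k, col (fun i k => decide (i ∈ (g k : Finset (Fin n)))) k = g k := by
    intro k; ext i; simp
  ext S
  rw [mem_colSpace]
  constructor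
  · rintro ⟨T, rfl⟩
    have : T.biUnion (col (fun i k => decide (i ∈ (g k : Finset (Fin n))))) =
        (T.image (fun k => (g k : Finset (Fin n)))).sup id := by
      ext i; simp [Finset.mem_sup, hcol]
    rw [this]
    apply hF.sup_mem
    intro S hS
    rw [mem_image] at hS
    obtain ⟨k, -, rfl⟩ := hS
    exact (g k).2
  · intro hS
    obtain ⟨k, hk⟩ := hg ⟨S, hS⟩
    refine ⟨{k}, ?_⟩
    rw [singleton_biUnion, hcol, hk]

/-- A matrix with prescribed column space. -/
noncomputable def mat {n m : ℕ} (hm : 2 ^ n ≤ m) (F : Finset (Finset (Fin n))) : BMat n m :=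
  open Classical in
  if h : UC F then (exists_colSpace_eq hm h).choose else fun _ _ => false

lemma colSpace_mat {n m : ℕ} (hm : 2 ^ n ≤ m) {F : Finset (Finset (Fin n))} (hF : UC F) :
    colSpace (mat hm F) = F := by
  rw [mat, dif_pos hF]
  exact (exists_colSpace_eq hm hF).choose_spec

/-- The D-class attached to a family. -/
noncomputable def cls {n m : ℕ} (hm : 2 ^ n ≤ m) (F : Finset (Finset (Fin n))) :
    Set (BMat n m) := {C | GreenD (mat hm F) C}

lemma cls_smul {n m : ℕ} (hm : 2 ^ n ≤ m) {F : Finset (Finset (Fin n))} (hF : UC F)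
    (σ : Equiv.Perm (Fin n)) : cls hm (σ • F) = cls hm F := by
  symm
  rw [cls, cls, dclass_eq_iff]
  refine ⟨permRows σ (mat hm F), greenL_permRows _ _, ?_⟩
  rw [greenR_iff, colSpace_permRows, colSpace_mat hm hF, colSpace_mat hm (hF.smul σ)]

lemma dclasses_eq_image {n m : ℕ} (hm : 2 ^ n ≤ m) :
    DClasses n m = cls hm '' (U (Fin n) : Set (Finset (Finset (Fin n)))) := by
  ext K
  constructor
  · rintro ⟨A, rfl⟩
    refine ⟨colSpace A, mem_coe.2 (mem_U.2 (colSpace_UC A)), ?_⟩
    rw [cls, dclass_eq_iff]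
    refine ⟨mat hm (colSpace A), GreenL.refl _, ?_⟩
    rw [greenR_iff, colSpace_mat hm (colSpace_UC A)]
  · rintro ⟨F, -, rfl⟩
    exact ⟨mat hm F, rfl⟩

open Classical in
lemma numD_eq_card_image {n m : ℕ} (hm : 2 ^ n ≤ m) :
    numD n m = ((U (Fin n)).image (cls (m := m) hm)).card := by
  rw [numD, dclasses_eq_image hm, ← Finset.coe_image, Set.ncard_coe_finset]

/-- The reduced families. -/
def Red (n : ℕ) : Finset (Finset (Finset (Fin n))) :=
  (U (Fin n)).filter (fun F => ∀ i, ¬ Redundant F i)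

lemma eq_smul_of_cls_eq {n m : ℕ} (hm : 2 ^ n ≤ m) {F G : Finset (Finset (Fin n))}
    (hF : F ∈ Red n) (hG : UC G) (h : cls hm F = cls hm G) :
    ∃ σ : Equiv.Perm (Fin n), G = σ • F := by
  rw [Red, mem_filter, mem_U] at hF
  rw [cls, cls, dclass_eq_iff] at h
  obtain ⟨E, hL, hR⟩ := h
  obtain ⟨σ, hσ⟩ := greenL_reduced hL (by rw [colSpace_mat hm hF.1]; exact hF.2)
  refine ⟨σ, ?_⟩
  rw [greenR_iff, hσ, colSpace_permRows, colSpace_mat hm hF.1, colSpace_mat hm hG] at hR
  exact hR.symm

/-- Lower bound for the number of D-classes. -/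
lemma red_card_le {n m : ℕ} (hm : 2 ^ n ≤ m) : (Red n).card ≤ n.factorial * numD n m := by
  classical
  have h1 : ((Red n).image (cls (m := m) hm)).card ≤ numD n m := by
    rw [numD_eq_card_image hm]
    exact card_le_card (image_subset_image (filter_subset _ _))
  have h2 : (Red n).card ≤ n.factorial * ((Red n).image (cls (m := m) hm)).card := by
    apply Finset.card_le_mul_card_image
    intro K hK
    rw [mem_image] at hK
    obtain ⟨F, hF, rfl⟩ := hK
    have hsub : (Red n).filter (fun G => cls (m := m) hm G = cls hm F) ⊆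
        (univ : Finset (Equiv.Perm (Fin n))).image (fun σ => σ • F) := by
      intro G hG
      rw [mem_filter] at hG
      have hG1 : UC G := mem_U.1 (mem_filter.1 hG.1).1
      obtain ⟨σ, hσ⟩ := eq_smul_of_cls_eq hm hF hG1 hG.2.symm
      rw [mem_image]
      exact ⟨σ, mem_univ _, hσ.symm⟩
    refine (card_le_card hsub).trans (card_image_le.trans ?_)
    rw [card_univ, Fintype.card_perm, Fintype.card_fin]
  exact h2.trans (Nat.mul_le_mul_left _ h1)

/-- Families with a nontrivial symmetry. -/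
def Sy (n : ℕ) : Finset (Finset (Finset (Fin n))) :=
  (U (Fin n)).filter (fun F => ∃ σ : Equiv.Perm (Fin n), σ ≠ 1 ∧ σ • F = F)

/-- Upper bound for the number of D-classes. -/
lemma numD_le {n m : ℕ} (hm : 2 ^ n ≤ m) :
    n.factorial * numD n m ≤ (U (Fin n)).card + n.factorial * (Sy n).card := by
  classical
  set N := (U (Fin n)).filter (fun F => ¬ ∃ σ : Equiv.Perm (Fin n), σ ≠ 1 ∧ σ • F = F) with hN
  have hUN : U (Fin n) = Sy n ∪ N := by
    rw [Sy, hN, filter_union_filter_not_eq]
  have h1 : numD n m ≤ (Sy n).card + (N.image (cls (m := m) hm)).card := by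
    rw [numD_eq_card_image hm, hUN, image_union]
    refine (card_union_le _ _).trans (Nat.add_le_add_right card_image_le _)
  have h2 : n.factorial * (N.image (cls (m := m) hm)).card ≤ N.card := by
    refine Finset.mul_card_image_le_card_of_maps_to (f := cls (m := m) hm)
      (fun F hF => mem_image_of_mem _ hF) n.factorial ?_
    · intro K hK
      rw [mem_image] at hK
      obtain ⟨F, hF, rfl⟩ := hK
      have hF' := hF
      rw [hN, mem_filter, mem_U] at hF'
      have hinj : Function.Injective (fun σ : Equiv.Perm (Fin n) => σ • F) := by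
        intro σ τ hστ
        simp only at hστ
        by_contra hne
        apply hF'.2
        refine ⟨τ⁻¹ * σ, ?_, ?_⟩
        · intro h
          apply hne
          have := congrArg (fun x => τ * x) h
          simpa using this
        · rw [mul_smul, hστ, inv_smul_smul]
      have hsub : (univ : Finset (Equiv.Perm (Fin n))).image (fun σ => σ • F) ⊆
          N.filter (fun G => cls (m := m) hm G = cls hm F) := by
        intro G hG
        rw [mem_image] at hG
        obtain ⟨σ, -, rfl⟩ := hG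
        rw [mem_filter]
        refine ⟨?_, cls_smul hm hF'.1 σ⟩
        rw [hN, mem_filter, mem_U]
        refine ⟨hF'.1.smul σ, ?_⟩
        rintro ⟨τ, hτ, hτF⟩
        apply hF'.2
        refine ⟨σ⁻¹ * τ * σ, ?_, ?_⟩
        · intro h
          apply hτ
          have := congrArg (fun x => σ * x * σ⁻¹) h
          simpa [mul_assoc] using this
        · rw [mul_smul, mul_smul, hτF, inv_smul_smul]
      calc n.factorial = (univ : Finset (Equiv.Perm (Fin n))).card := by
            rw [card_univ, Fintype.card_perm, Fintype.card_fin]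
        _ = ((univ : Finset (Equiv.Perm (Fin n))).image (fun σ => σ • F)).card :=
            (card_image_of_injective _ hinj).symm
        _ ≤ _ := card_le_card hsub
  have h3 : N.card ≤ (U (Fin n)).card := card_le_card (filter_subset _ _)
  calc n.factorial * numD n m ≤ n.factorial * ((Sy n).card + (N.image (cls (m := m) hm)).card) :=
        Nat.mul_le_mul_left _ h1
    _ = n.factorial * (N.image (cls (m := m) hm)).card + n.factorial * (Sy n).card := by ring
    _ ≤ _ := Nat.add_le_add_right (h2.trans h3) _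

end Pool.Agent.BoolD
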